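import Pool.Agent.Y880.RS.G5b

/-!
# Progressions on a positive proportion of all scales, and the size of the proportion of the shifts
-/

set_option autoImplicit false

open Finset Polynomial Filter

namespace Pool.Agent.U621.MS

/-- double counting -/
theorem dc {X I : ℕ} {c : ℝ} (hI : 1 ≤ I) (hc : 0 < c) (G : ℕ → Finset ℕ)
    (hG : ∀ i ∈ Icc 1 I, G i ⊆ Icc 1 X) (hGc : ∀ i ∈ Icc 1 I, c * X ≤ (G i).card) :
    c / 2 * X ≤ (((Icc 1 X).filter (fun b =>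
      c / 2 * I ≤ (((Icc 1 I).filter (fun i => b ∈ G i)).card : ℝ))).card : ℝ) := by
  classical
  obtain ⟨A, hA⟩ : ∃ A, A = (Icc 1 X).filter (fun b =>
      c / 2 * I ≤ (((Icc 1 I).filter (fun i => b ∈ G i)).card : ℝ)) := ⟨_, rfl⟩
  rw [← hA]
  have h1 : ∑ i ∈ Icc 1 I, ((G i).card : ℝ) =
      ∑ b ∈ Icc 1 X, (((Icc 1 I).filter (fun i => b ∈ G i)).card : ℝ) := by
    have h2 : ∀ i ∈ Icc 1 I, ((G i).card : ℝ) = ∑ b ∈ Icc 1 X, if b ∈ G i then (1 : ℝ) else 0 := by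
      intro i hi
      rw [sum_ite_mem, inter_eq_right.2 (hG i hi), sum_const, nsmul_eq_mul, mul_one]
    rw [sum_congr rfl h2, sum_comm]
    apply sum_congr rfl
    intro b _
    rw [← sum_filter, sum_const, nsmul_eq_mul, mul_one]
  have h3 : c * X * I ≤ ∑ i ∈ Icc 1 I, ((G i).card : ℝ) := by
    calc c * X * I = ∑ _i ∈ Icc 1 I, c * (X : ℝ) := by
          rw [sum_const, nsmul_eq_mul, Nat.card_Icc, Nat.add_sub_cancel]; ring
      _ ≤ _ := sum_le_sum hGc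
  have hcard : ∀ b, (((Icc 1 I).filter (fun i => b ∈ G i)).card : ℝ) ≤ I := by
    intro b
    have := card_filter_le (Icc 1 I) (fun i => b ∈ G i)
    rw [Nat.card_Icc, Nat.add_sub_cancel] at this
    exact_mod_cast this
  have h4 : ∑ b ∈ Icc 1 X, (((Icc 1 I).filter (fun i => b ∈ G i)).card : ℝ) ≤
      A.card * I + X * (c / 2 * I) := by
    rw [← sum_filter_add_sum_filter_not (Icc 1 X) (fun b =>
      c / 2 * I ≤ (((Icc 1 I).filter (fun i => b ∈ G i)).card : ℝ)), ← hA]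
    apply add_le_add
    · calc _ ≤ ∑ _b ∈ A, (I : ℝ) := sum_le_sum fun b _ => hcard b
        _ = _ := by rw [sum_const, nsmul_eq_mul]
    · calc _ ≤ ∑ _b ∈ (Icc 1 X).filter (fun b =>
            ¬ c / 2 * I ≤ (((Icc 1 I).filter (fun i => b ∈ G i)).card : ℝ)), c / 2 * (I : ℝ) := by
            apply sum_le_sum
            intro b hb
            rw [mem_filter] at hb
            exact (not_le.1 hb.2).le
        _ ≤ _ := by
            rw [sum_const, nsmul_eq_mul]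
            apply mul_le_mul_of_nonneg_right _ (by positivity)
            have := card_filter_le (Icc 1 X) (fun b =>
              ¬ c / 2 * I ≤ (((Icc 1 I).filter (fun i => b ∈ G i)).card : ℝ))
            rw [Nat.card_Icc, Nat.add_sub_cancel] at this
            exact_mod_cast this
  have hI0 : (0 : ℝ) < I := by exact_mod_cast hI
  have h5 : c / 2 * X * I ≤ A.card * I := by
    have := h3.trans (h1.le.trans h4)
    nlinarith
  exact le_of_mul_le_mul_right h5 hI0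

/-- facts for large `X` -/
theorem ev (d B : ℕ) (hd : 1 ≤ d) (δ : ℝ) (hδ : 0 < δ) : ∃ X₀ : ℕ, ∀ X : ℕ, X₀ ≤ X →
    2 ≤ Real.log X ∧ 2 / δ ≤ Real.log X ∧ 0 < Real.log (Real.log X) ∧
    1 ≤ Real.log X / (4 * d * (B + 1) * Real.log (Real.log X)) := by
  have hlog : Tendsto (fun X : ℕ => Real.log X) atTop atTop :=
    Real.tendsto_log_atTop.comp tendsto_natCast_atTop_atTop
  have hd0 : (0 : ℝ) < d := by exact_mod_cast hd
  have h3 : ∀ᶠ L : ℝ in atTop, 1 ≤ L / (4 * d * (B + 1) * Real.log L) := by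
    have hll : Tendsto (fun L : ℝ => Real.log L / L) atTop (nhds 0) := by
      simpa using Real.isLittleO_log_id_atTop.tendsto_div_nhds_zero
    filter_upwards [hll.eventually (gt_mem_nhds (show (0 : ℝ) < 1 / (4 * d * (B + 1)) by positivity)),
      eventually_gt_atTop 1] with L h1 h2
    have hL : 0 < Real.log L := Real.log_pos h2
    rw [div_lt_div_iff₀ (by linarith) (by positivity)] at h1
    rw [le_div_iff₀ (by positivity)]
    linarith
  have hall : ∀ᶠ X : ℕ in atTop, 2 ≤ Real.log X ∧ 2 / δ ≤ Real.log X ∧ 0 < Real.log (Real.log X) ∧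
      1 ≤ Real.log X / (4 * d * (B + 1) * Real.log (Real.log X)) := by
    filter_upwards [hlog.eventually (eventually_ge_atTop 2), hlog.eventually (eventually_ge_atTop (2 / δ)),
      hlog.eventually h3] with X e1 e2 e3
    exact ⟨e1, e2, Real.log_pos (by linarith), e3⟩
  exact eventually_atTop.1 hall

theorem scales (f : ℤ[X]) (hf : f.natDegree ≠ 0) (k : ℕ) (hk : 2 ≤ k) (δ ε : ℝ) (hδ : 0 < δ) (hδ1 : δ ≤ 1)
    (hε : 0 < ε) (hε1 : ε ≤ 1) :
    ∃ B : ℕ, ∃ c : ℝ, 0 < c ∧ ∃ X₀ : ℕ, ∀ X : ℕ, X₀ ≤ X →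
      ∀ P : Finset ℕ, (∀ p ∈ P, p.Prime ∧ p ≤ X) → δ * (X / Real.log X) ≤ P.card →
      (∀ N : ℕ, Real.log X ^ B ≤ N → N ^ (4 * f.natDegree) ≤ X →
        ∀ T : Finset ℕ, (∀ n ∈ T, 1 ≤ n ∧ n ≤ N) → δ * N ≤ T.card →
        c * X ≤ (Set.ncard {b : ℕ | 1 ≤ b ∧ b ≤ X ∧ ∃ n r : ℕ, 1 ≤ r ∧
          (r : ℝ) ≤ (N : ℝ) ^ ε * Real.log X ^ B ∧
          ∀ j < k, n + j * r ∈ T ∧ ∃ p ∈ P, (p : ℤ) = f.eval ((n + j * r : ℕ) : ℤ) + b} : ℝ)) ∧
      ∀ T : Set ℕ, (∀ N : ℕ, Real.log X ^ B ≤ N → N ^ (4 * f.natDegree) ≤ X →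
          δ * N ≤ (T ∩ Set.Icc 1 N).ncard) →
        c * X ≤ (Set.ncard {b : ℕ | 1 ≤ b ∧ b ≤ X ∧ c * (Real.log X / Real.log (Real.log X)) ≤
          (Set.ncard {i : ℕ | 1 ≤ i ∧ (⌈Real.log X ^ B⌉₊ ^ i) ^ (4 * f.natDegree) ≤ X ∧ ∃ n r : ℕ, 1 ≤ r ∧
            (r : ℝ) ≤ ((⌈Real.log X ^ B⌉₊ ^ i : ℕ) : ℝ) ^ ε * Real.log X ^ B ∧
            ∀ j < k, ⌈Real.log X ^ B⌉₊ ^ (i - 1) < n + j * r ∧ n + j * r ≤ ⌈Real.log X ^ B⌉₊ ^ i ∧
              n + j * r ∈ T ∧ ∃ p ∈ P, (p : ℤ) = f.eval ((n + j * r : ℕ) : ℤ) + b} : ℝ)} : ℝ) := by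
  classical
  obtain ⟨B₀, c₀, hc₀, X₁, hg⟩ := Pool.Agent.Y880.RS.G5.g5 f hf k hk (δ / 2) ε (by positivity) hε hε1
  obtain ⟨B, hB⟩ : ∃ B, B = max B₀ 1 := ⟨_, rfl⟩
  have hBB : B₀ ≤ B := hB ▸ le_max_left _ _
  have hB1 : 1 ≤ B := hB ▸ le_max_right _ _
  obtain ⟨d, hd⟩ : ∃ d, d = f.natDegree := ⟨_, rfl⟩
  rw [← hd]
  rw [← hd] at hg
  have hd1 : 1 ≤ d := by omega
  have hd0 : (0 : ℝ) < d := by exact_mod_cast hd1
  obtain ⟨X₂, hev⟩ := ev d B hd1 δ hδ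
  obtain ⟨c, hc⟩ : ∃ c, c = min (c₀ / 2) (c₀ / 2 / (8 * d * (B + 1))) := ⟨_, rfl⟩
  have hcc : c ≤ c₀ / 2 := hc ▸ min_le_left _ _
  have hcc' : c ≤ c₀ / 2 / (8 * d * (B + 1)) := hc ▸ min_le_right _ _
  refine ⟨B, c, by rw [hc]; exact lt_min (by positivity) (by positivity), max X₁ X₂, ?_⟩
  intro X hX P hP hPc
  have hX1 : X₁ ≤ X := (le_max_left _ _).trans hX
  obtain ⟨hL2, hLδ, hLL, hI1⟩ := hev X ((le_max_right _ _).trans hX)
  have hX0 : (0 : ℝ) ≤ X := Nat.cast_nonneg _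
  obtain ⟨L, hL⟩ : ∃ L, L = Real.log X := ⟨_, rfl⟩
  rw [← hL] at hL2 hLδ hLL hI1 hPc ⊢
  have hL1 : 1 ≤ L := by linarith
  have hL0 : 0 < L := by linarith
  have hpB : L ^ B₀ ≤ L ^ B := pow_le_pow_right₀ hL1 hBB
  -- one scale
  have hone : ∀ N : ℕ, L ^ B ≤ N → N ^ (4 * d) ≤ X → ∀ T : Finset ℕ, (∀ n ∈ T, 1 ≤ n ∧ n ≤ N) →
      δ / 2 * N ≤ T.card → ∃ G ⊆ Icc 1 X, c₀ * X ≤ (G.card : ℝ) ∧ ∀ b ∈ G, ∃ n r : ℕ, 1 ≤ r ∧
          (r : ℝ) ≤ (N : ℝ) ^ ε * L ^ B ∧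
          ∀ j < k, n + j * r ∈ T ∧ ∃ p ∈ P, (p : ℤ) = f.eval ((n + j * r : ℕ) : ℤ) + b := by
    intro N hN hNX T hT hTc
    obtain ⟨G, hG, hGc, hGm⟩ := hg X N hX1 (by rw [← hL]; exact hpB.trans hN) hNX T
      (fun n hn => mem_Icc.2 (hT n hn)) hTc P
      (fun p hp => mem_Icc.2 ⟨(hP p hp).1.one_lt.le, (hP p hp).2⟩) (fun p hp => (hP p hp).1) (by
        rw [← hL]
        refine le_trans ?_ hPc
        have : 0 ≤ (X : ℝ) / L := by positivity
        nlinarith)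
    refine ⟨G, hG, hGc, fun b hb => ?_⟩
    obtain ⟨n, r, hr1, hr2, hj⟩ := hGm b hb
    refine ⟨n, r, hr1, hr2.trans ?_, hj⟩
    rw [← hL]
    exact mul_le_mul_of_nonneg_left hpB (by positivity)
  constructor
  · intro N hN hNX T hT hTc
    obtain ⟨G, hG, hGc, hGm⟩ := hone N hN hNX T hT (le_trans (by
      have : (0 : ℝ) ≤ N := Nat.cast_nonneg _
      nlinarith) hTc)
    have hfin : Set.Finite {b : ℕ | 1 ≤ b ∧ b ≤ X ∧ ∃ n r : ℕ, 1 ≤ r ∧
        (r : ℝ) ≤ (N : ℝ) ^ ε * L ^ B ∧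
        ∀ j < k, n + j * r ∈ T ∧ ∃ p ∈ P, (p : ℤ) = f.eval ((n + j * r : ℕ) : ℤ) + b} :=
      (Set.finite_Icc 1 X).subset (fun b hb => ⟨hb.1, hb.2.1⟩)
    have h2 := Set.ncard_le_ncard (s := (G : Set ℕ)) (fun b hb => by
      have h1 := mem_Icc.1 (hG hb)
      exact ⟨h1.1, h1.2, hGm b hb⟩) hfin
    rw [Set.ncard_coe_finset] at h2
    have h3 : (G.card : ℝ) ≤ _ := Nat.cast_le.2 h2
    refine le_trans ?_ h3
    refine le_trans ?_ hGc
    apply mul_le_mul_of_nonneg_right _ hX0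
    linarith
  · intro T hT
    obtain ⟨M, hM⟩ : ∃ M, M = ⌈L ^ B⌉₊ := ⟨_, rfl⟩
    rw [← hM]
    have hML : L ^ B ≤ M := by rw [hM]; exact Nat.le_ceil _
    have hLB : L ≤ L ^ B := le_self_pow₀ hL1 (by omega)
    have hM2 : (2 : ℝ) ≤ M := by linarith
    have hM0 : (0 : ℝ) < M := by linarith
    have hM1 : 1 < M := by
      have : (1 : ℝ) < M := by linarith
      exact_mod_cast this
    have hMU : (M : ℝ) ≤ L ^ (B + 1) := by
      have h1 : (M : ℝ) < L ^ B + 1 := by rw [hM]; exact Nat.ceil_lt_add_one (by positivity)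
      have h2 : L ^ B * 2 ≤ L ^ B * L := by gcongr
      rw [pow_succ]
      linarith
    have hlM : Real.log M ≤ (B + 1) * Real.log L := by
      have := Real.log_le_log hM0 hMU
      rw [Real.log_pow] at this
      push_cast at this
      exact this
    have hlM0 : 0 < Real.log M := Real.log_pos (by linarith)
    have hXpos : (0 : ℝ) < X := by
      rcases Nat.eq_zero_or_pos X with h | h
      · rw [h] at hL
        norm_num at hL
        linarith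
      · exact_mod_cast h
    obtain ⟨x, hx⟩ : ∃ x, x = L / (4 * d * (B + 1) * Real.log L) := ⟨_, rfl⟩
    rw [← hx] at hI1
    obtain ⟨I, hI⟩ : ∃ I, I = ⌊x⌋₊ := ⟨_, rfl⟩
    have hIx : (I : ℝ) ≤ x := by rw [hI]; exact Nat.floor_le (by linarith)
    have hI1' : 1 ≤ I := by rw [hI]; exact (Nat.one_le_floor_iff _).2 hI1
    have hI1r : (1 : ℝ) ≤ I := by exact_mod_cast hI1'
    have hIlo : x / 2 ≤ I := by
      have h1 : x < I + 1 := by rw [hI]; exact Nat.lt_floor_add_one x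
      linarith
    have hscale : ∀ i ∈ Icc 1 I, (M ^ i) ^ (4 * d) ≤ X := by
      intro i hi
      rw [mem_Icc] at hi
      have h1 : ((M : ℝ) ^ i) ^ (4 * d) ≤ X := by
        rw [← Real.log_le_log_iff (by positivity) hXpos, Real.log_pow, Real.log_pow, ← hL]
        have h2 : (i : ℝ) ≤ x := le_trans (by exact_mod_cast hi.2) hIx
        rw [hx, le_div_iff₀ (by positivity)] at h2
        push_cast
        calc 4 * (d : ℝ) * (i * Real.log M) ≤ 4 * d * (i * ((B + 1) * Real.log L)) := by gcongr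
          _ = i * (4 * d * (B + 1) * Real.log L) := by ring
          _ ≤ L := h2
      exact_mod_cast h1
    have hbig : ∀ i ∈ Icc 1 I, L ^ B ≤ ((M ^ i : ℕ) : ℝ) := by
      intro i hi
      rw [mem_Icc] at hi
      push_cast
      refine hML.trans ?_
      exact le_self_pow₀ (by linarith) (by omega)
    -- the part of `T` at the scale `i`
    obtain ⟨Ti, hTi⟩ : ∃ Ti : ℕ → Finset ℕ, Ti = fun i =>
      (Icc 1 (M ^ i)).filter (fun n => M ^ (i - 1) < n ∧ n ∈ T) := ⟨_, rfl⟩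
    have hTim : ∀ i n, n ∈ Ti i ↔ (1 ≤ n ∧ n ≤ M ^ i) ∧ M ^ (i - 1) < n ∧ n ∈ T := by
      intro i n; rw [hTi, mem_filter, mem_Icc]
    have hTic : ∀ i ∈ Icc 1 I, δ / 2 * ((M ^ i : ℕ) : ℝ) ≤ ((Ti i).card : ℝ) := by
      intro i hi
      have h1 := hT (M ^ i) (hbig i hi) (hscale i hi)
      have hi' := mem_Icc.1 hi
      have h2 : (T ∩ Set.Icc 1 (M ^ i)).ncard ≤ (Ti i).card + M ^ (i - 1) := by
        have h3 : T ∩ Set.Icc 1 (M ^ i) ⊆ ((Ti i ∪ Icc 1 (M ^ (i - 1)) : Finset ℕ) : Set ℕ) := by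
          intro n hn
          rw [mem_coe, mem_union, hTim, mem_Icc]
          have h4 := hn.2
          rw [Set.mem_Icc] at h4
          by_cases h5 : M ^ (i - 1) < n
          · left; exact ⟨h4, h5, hn.1⟩
          · right; omega
        have h4 := Set.ncard_le_ncard h3 (Finset.finite_toSet _)
        rw [Set.ncard_coe_finset] at h4
        have h5 := card_union_le (Ti i) (Icc 1 (M ^ (i - 1)))
        rw [Nat.card_Icc, Nat.add_sub_cancel] at h5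
        omega
      have h3 : ((T ∩ Set.Icc 1 (M ^ i)).ncard : ℝ) ≤ (Ti i).card + (M : ℝ) ^ (i - 1) := by
        exact_mod_cast h2
      have h4 : (M : ℝ) ^ (i - 1) ≤ δ / 2 * (M : ℝ) ^ i := by
        have e : i = i - 1 + 1 := by omega
        have e2 : (M : ℝ) ^ i = (M : ℝ) ^ (i - 1) * M := by
          conv_lhs => rw [e]
          rw [pow_succ]
        rw [e2]
        have h5 : 2 / δ ≤ (M : ℝ) := by linarith
        have h6 : 1 ≤ δ / 2 * M := by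
          rw [div_le_iff₀ hδ] at h5
          linarith
        have h7 : (0 : ℝ) ≤ (M : ℝ) ^ (i - 1) := by positivity
        nlinarith
      push_cast at h1 ⊢
      linarith
    have hex : ∀ i ∈ Icc 1 I, ∃ G ⊆ Icc 1 X, c₀ * X ≤ (G.card : ℝ) ∧ ∀ b ∈ G, ∃ n r : ℕ, 1 ≤ r ∧
        (r : ℝ) ≤ ((M ^ i : ℕ) : ℝ) ^ ε * L ^ B ∧
        ∀ j < k, n + j * r ∈ Ti i ∧ ∃ p ∈ P, (p : ℤ) = f.eval ((n + j * r : ℕ) : ℤ) + b := fun i hi =>
      hone (M ^ i) (hbig i hi) (hscale i hi) (Ti i) (fun n hn => ((hTim i n).1 hn).1) (hTic i hi)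
    choose! G hG1 hG2 hG3 using hex
    have hdc := dc hI1' hc₀ G hG1 hG2
    have hfin : Set.Finite {b : ℕ | 1 ≤ b ∧ b ≤ X ∧ c * (L / Real.log L) ≤
          (Set.ncard {i : ℕ | 1 ≤ i ∧ (M ^ i) ^ (4 * d) ≤ X ∧ ∃ n r : ℕ, 1 ≤ r ∧
            (r : ℝ) ≤ ((M ^ i : ℕ) : ℝ) ^ ε * L ^ B ∧
            ∀ j < k, M ^ (i - 1) < n + j * r ∧ n + j * r ≤ M ^ i ∧
              n + j * r ∈ T ∧ ∃ p ∈ P, (p : ℤ) = f.eval ((n + j * r : ℕ) : ℤ) + b} : ℝ)} :=
      (Set.finite_Icc 1 X).subset (fun b hb => ⟨hb.1, hb.2.1⟩)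
    have h2 := Set.ncard_le_ncard (s := (((Icc 1 X).filter (fun b =>
      c₀ / 2 * I ≤ (((Icc 1 I).filter (fun i => b ∈ G i)).card : ℝ)) : Finset ℕ) : Set ℕ)) (fun b hb => by
      rw [mem_coe, mem_filter, mem_Icc] at hb
      refine ⟨hb.1.1, hb.1.2, ?_⟩
      have hfin2 : Set.Finite {i : ℕ | 1 ≤ i ∧ (M ^ i) ^ (4 * d) ≤ X ∧ ∃ n r : ℕ, 1 ≤ r ∧
            (r : ℝ) ≤ ((M ^ i : ℕ) : ℝ) ^ ε * L ^ B ∧
            ∀ j < k, M ^ (i - 1) < n + j * r ∧ n + j * r ≤ M ^ i ∧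
              n + j * r ∈ T ∧ ∃ p ∈ P, (p : ℤ) = f.eval ((n + j * r : ℕ) : ℤ) + b} := by
        apply (Set.finite_Iic X).subset
        intro i hi
        have h5 : i < M ^ i := Nat.lt_pow_self hM1
        have h6 : M ^ i ≤ (M ^ i) ^ (4 * d) := Nat.le_self_pow (by omega) _
        have := hi.2.1
        rw [Set.mem_Iic]
        omega
      have h3 := Set.ncard_le_ncard (s := (((Icc 1 I).filter (fun i => b ∈ G i) : Finset ℕ) : Set ℕ))
        (fun i hi => by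
          rw [mem_coe, mem_filter] at hi
          obtain ⟨n, r, hr1, hr2, hj⟩ := hG3 i hi.1 b hi.2
          refine ⟨(mem_Icc.1 hi.1).1, hscale i hi.1, n, r, hr1, hr2, fun j hjk => ?_⟩
          obtain ⟨h4, h5⟩ := hj j hjk
          rw [hTim] at h4
          exact ⟨h4.2.1, h4.1.2, h4.2.2, h5⟩) hfin2
      rw [Set.ncard_coe_finset] at h3
      have h4 : ((((Icc 1 I).filter (fun i => b ∈ G i)).card : ℕ) : ℝ) ≤ _ := Nat.cast_le.2 h3
      refine le_trans ?_ h4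
      refine le_trans ?_ hb.2
      have hLL0 : 0 ≤ L / Real.log L := by positivity
      calc c * (L / Real.log L) ≤ c₀ / 2 / (8 * d * (B + 1)) * (L / Real.log L) := by gcongr
        _ = c₀ / 2 * (x / 2) := by rw [hx]; field_simp; ring
        _ ≤ c₀ / 2 * I := by gcongr) hfin
    rw [Set.ncard_coe_finset] at h2
    have h3 : ((((Icc 1 X).filter (fun b =>
      c₀ / 2 * I ≤ (((Icc 1 I).filter (fun i => b ∈ G i)).card : ℝ))).card : ℕ) : ℝ) ≤ _ := Nat.cast_le.2 h2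
    refine le_trans ?_ h3
    refine le_trans ?_ hdc
    gcongr

end Pool.Agent.U621.MS
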