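import Mathlib

/-!
# The proportion of the shifts is at most linear in the density
-/

set_option autoImplicit false

open Finset Polynomial Filter

namespace Pool.Agent.U621.MS

theorem pi_lower : ∃ X₁ : ℕ, ∀ X : ℕ, X₁ ≤ X →
    (X : ℝ) / (2 * Real.log X) ≤ Nat.primeCounting X ∧ 0 < Real.log X := by
  have h1 : Tendsto (fun X : ℕ => Real.log X) atTop atTop :=
    Real.tendsto_log_atTop.comp tendsto_natCast_atTop_atTop
  have h2 : ∀ᶠ x : ℝ in atTop, Real.log (x + 1) / x < Real.log 2 - 1 / 2 := by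
    have h3 : Tendsto (fun x : ℝ => Real.log x / (x - 1)) atTop (nhds 0) := by
      have h4 : Tendsto (fun x : ℝ => Real.log x / x * (x / (x - 1))) atTop (nhds (0 * 1)) := by
        apply Tendsto.mul
        · simpa using Real.isLittleO_log_id_atTop.tendsto_div_nhds_zero
        · have h5 : Tendsto (fun x : ℝ => 1 + (x - 1)⁻¹) atTop (nhds (1 + 0)) := by
            apply tendsto_const_nhds.add
            exact tendsto_inv_atTop_zero.comp (tendsto_atTop_add_const_right _ _ tendsto_id)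
          rw [add_zero] at h5
          refine h5.congr' ?_
          filter_upwards [eventually_gt_atTop 1] with x hx
          have : x - 1 ≠ 0 := by linarith
          field_simp
          ring
      rw [zero_mul] at h4
      refine h4.congr' ?_
      filter_upwards [eventually_gt_atTop 1] with x hx
      have : x - 1 ≠ 0 := by linarith
      field_simp
    have h4 : Tendsto (fun x : ℝ => x + 1) atTop atTop := tendsto_atTop_add_const_right _ _ tendsto_id
    have h5 := h3.comp h4
    have h6 : (0 : ℝ) < Real.log 2 - 1 / 2 := by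
      have := Real.log_two_gt_d9
      linarith
    have h7 := h5.eventually (gt_mem_nhds h6)
    filter_upwards [h7] with x hx
    simpa using hx
  have h3 := tendsto_natCast_atTop_atTop (R := ℝ) |>.eventually h2
  obtain ⟨X₁, h4⟩ := eventually_atTop.1 (h3.and ((h1.eventually (eventually_gt_atTop 0)).and
    (eventually_ge_atTop 1)))
  refine ⟨X₁, fun X hX => ?_⟩
  obtain ⟨e1, e2, e3⟩ := h4 X hX
  refine ⟨?_, e2⟩
  have h5 := Chebyshev.pi_ge X
  refine le_trans ?_ h5
  have hX0 : (0 : ℝ) < X := by exact_mod_cast e3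
  rw [div_lt_iff₀ hX0] at e1
  have e : (X : ℝ) / (2 * Real.log X) = (X / 2) / Real.log X := by field_simp
  rw [e]
  apply div_le_div_of_nonneg_right _ e2.le
  linarith

/-- **The proportion is at most linear in the density.** -/
theorem sharp (f : ℤ[X]) (δ : ℝ) (hδ : 0 < δ) (hδ4 : δ ≤ 1 / 4) :
    ∃ T : Set ℕ, (∀ N : ℕ, 1 / δ ≤ N → δ * N ≤ (T ∩ Set.Icc 1 N).ncard) ∧
      ∃ X₁ : ℕ, ∀ X : ℕ, X₁ ≤ X → ∃ P : Finset ℕ, (∀ p ∈ P, p.Prime ∧ p ≤ X) ∧
        δ * (X / Real.log X) ≤ P.card ∧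
        (Set.ncard {b : ℕ | 1 ≤ b ∧ b ≤ X ∧ ∃ n ∈ T, ∃ p ∈ P, (p : ℤ) = f.eval (n : ℤ) + b} : ℝ) ≤
          5 * δ * X := by
  classical
  obtain ⟨q, hq⟩ : ∃ q, q = ⌊1 / (2 * δ)⌋₊ := ⟨_, rfl⟩
  have hq2 : (2 : ℝ) ≤ 1 / (2 * δ) := by
    rw [le_div_iff₀ (by positivity)]; linarith
  have hqle : (q : ℝ) ≤ 1 / (2 * δ) := by rw [hq]; exact Nat.floor_le (by positivity)
  have hqge : 1 / (4 * δ) ≤ q := by
    have h1 : 1 / (2 * δ) < q + 1 := by rw [hq]; exact Nat.lt_floor_add_one _
    have h2 : 1 / (2 * δ) = 2 * (1 / (4 * δ)) := by field_simp; ring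
    rw [h2] at h1 hq2
    linarith
  have hq1 : 1 ≤ q := by
    rw [hq]; exact (Nat.one_le_floor_iff _).2 (by linarith)
  have hq0 : (0 : ℝ) < q := by exact_mod_cast hq1
  have hδq : δ * (2 * q) ≤ 1 := by
    have h1 : (q : ℝ) * (2 * δ) ≤ 1 := by rwa [le_div_iff₀ (by positivity)] at hqle
    linarith
  have h4δq : 1 ≤ 4 * δ * q := by
    rw [div_le_iff₀ (by positivity)] at hqge
    linarith
  refine ⟨{n | q ∣ n}, ?_, ?_⟩
  · intro N hN
    have hqN : q ≤ N := by
      have h1 : (q : ℝ) ≤ N := by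
        refine hqle.trans (le_trans ?_ hN)
        apply div_le_div_of_nonneg_left (by norm_num) hδ
        linarith
      exact_mod_cast h1
    have h1 : N / q ≤ ({n | q ∣ n} ∩ Set.Icc 1 N : Set ℕ).ncard := by
      have h2 : (((Icc 1 (N / q)).image (fun j => q * j) : Finset ℕ) : Set ℕ) ⊆ {n | q ∣ n} ∩ Set.Icc 1 N := by
        intro n hn
        rw [mem_coe, mem_image] at hn
        obtain ⟨j, hj, rfl⟩ := hn
        rw [mem_Icc] at hj
        refine ⟨Dvd.intro _ rfl, ?_⟩
        rw [Set.mem_Icc]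
        refine ⟨Nat.mul_pos hq1 hj.1, ?_⟩
        calc q * j ≤ q * (N / q) := Nat.mul_le_mul_left q hj.2
          _ ≤ N := Nat.mul_div_le N q
      have h3 := Set.ncard_le_ncard h2 ((Set.finite_Icc 1 N).subset Set.inter_subset_right)
      rw [Set.ncard_coe_finset, card_image_of_injective, Nat.card_Icc, Nat.add_sub_cancel] at h3
      · exact h3
      · intro a b hab
        exact Nat.eq_of_mul_eq_mul_left hq1 hab
    have h2 : (N : ℝ) < q * (N / q : ℕ) + q := by
      have h3 := Nat.lt_div_mul_add (a := N) hq1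
      have h4 : N < N / q * q + q := h3
      have h5 : (N : ℝ) < ((N / q : ℕ) : ℝ) * q + q := by exact_mod_cast h4
      linarith
    have h3 : (1 : ℝ) ≤ (N / q : ℕ) := by
      have : 1 ≤ N / q := (Nat.one_le_div_iff hq1).2 hqN
      exact_mod_cast this
    have h4 : δ * N ≤ (N / q : ℕ) := by
      have h5 : δ * N ≤ δ * (2 * q) * (N / q : ℕ) := by
        have : (N : ℝ) ≤ 2 * q * (N / q : ℕ) := by nlinarith
        nlinarith
      nlinarith
    exact h4.trans (by exact_mod_cast h1)
  · obtain ⟨X₁, hX₁⟩ := pi_lower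
    refine ⟨max X₁ ⌈1 / δ⌉₊, fun X hX => ?_⟩
    obtain ⟨hpi, hlX⟩ := hX₁ X ((le_max_left _ _).trans hX)
    have hXδ : 1 / δ ≤ X := (Nat.le_ceil _).trans (by exact_mod_cast (le_max_right _ _).trans hX)
    -- the class with the most primes
    obtain ⟨Pr, hPr⟩ : ∃ Pr, Pr = (Icc 1 X).filter Nat.Prime := ⟨_, rfl⟩
    have hPrc : Pr.card = Nat.primeCounting X := by
      rw [hPr, Nat.primeCounting, Nat.primeCounting', Nat.count_eq_card_filter_range]
      congr 1
      ext p
      rw [mem_filter, mem_filter, mem_Icc, mem_range]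
      constructor
      · rintro ⟨⟨h1, h2⟩, h3⟩; exact ⟨by omega, h3⟩
      · rintro ⟨h1, h3⟩; exact ⟨⟨h3.one_lt.le, by omega⟩, h3⟩
    obtain ⟨a, ha, hPa⟩ : ∃ a ∈ range q, Pr.card ≤ q * (Pr.filter (fun p => p % q = a)).card := by
      by_contra hcon
      push Not at hcon
      have h1 : Pr.card = ∑ a ∈ range q, (Pr.filter (fun p => p % q = a)).card :=
        card_eq_sum_card_fiberwise (fun p _ => mem_coe.2 (mem_range.2 (Nat.mod_lt _ hq1)))
      have h2 : q * Pr.card = ∑ a ∈ range q, q * (Pr.filter (fun p => p % q = a)).card := by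
        rw [h1, mul_sum]
      have h3 : ∑ a ∈ range q, q * (Pr.filter (fun p => p % q = a)).card < ∑ _a ∈ range q, Pr.card :=
        sum_lt_sum_of_nonempty ⟨0, mem_range.2 hq1⟩ hcon
      rw [sum_const, card_range, smul_eq_mul, ← h2] at h3
      exact lt_irrefl _ h3
    refine ⟨Pr.filter (fun p => p % q = a), ?_, ?_, ?_⟩
    · intro p hp
      rw [mem_filter, hPr, mem_filter, mem_Icc] at hp
      exact ⟨hp.1.2, hp.1.1.2⟩
    · rw [hPrc] at hPa
      have h1 : (Nat.primeCounting X : ℝ) ≤ q * (Pr.filter (fun p => p % q = a)).card := by exact_mod_cast hPa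
      have h2 : (X : ℝ) / (2 * Real.log X) ≤ q * (Pr.filter (fun p => p % q = a)).card := hpi.trans h1
      have h3 : δ * (X / Real.log X) = δ * 2 * (X / (2 * Real.log X)) := by field_simp
      rw [h3]
      calc δ * 2 * ((X : ℝ) / (2 * Real.log X)) ≤ δ * 2 * (q * (Pr.filter (fun p => p % q = a)).card) := by
            gcongr
        _ = δ * (2 * q) * (Pr.filter (fun p => p % q = a)).card := by ring
        _ ≤ 1 * (Pr.filter (fun p => p % q = a)).card := by gcongr
        _ = _ := one_mul _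
    · -- the shifts lie in one residue class
      obtain ⟨r, hr⟩ : ∃ r : ℕ, r = (((a : ℤ) - f.eval 0) % q).toNat := ⟨_, rfl⟩
      have hsub : {b : ℕ | 1 ≤ b ∧ b ≤ X ∧ ∃ n ∈ {n : ℕ | q ∣ n}, ∃ p ∈ Pr.filter (fun p => p % q = a),
          (p : ℤ) = f.eval (n : ℤ) + b} ⊆ (((Ioc 0 X).filter (fun b => b ≡ r [MOD q]) : Finset ℕ) : Set ℕ) := by
        rintro b ⟨hb1, hb2, n, hn, p, hp, hpb⟩
        rw [mem_coe, mem_filter, mem_Ioc]
        refine ⟨⟨hb1, hb2⟩, ?_⟩
        rw [mem_filter] at hp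
        have hqz : (0 : ℤ) < q := by exact_mod_cast hq1
        have h1 : (q : ℤ) ∣ f.eval (n : ℤ) - f.eval 0 := by
          have h2 := f.sub_dvd_eval_sub (n : ℤ) 0
          rw [sub_zero] at h2
          exact (Int.natCast_dvd_natCast.2 hn).trans h2
        have h2 : (q : ℤ) ∣ (p : ℤ) - a := by
          have h3 := Nat.div_add_mod p q
          rw [hp.2] at h3
          refine ⟨(p / q : ℕ), ?_⟩
          have h4 : (p : ℤ) = q * (p / q : ℕ) + a := by exact_mod_cast h3.symm
          linarith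
        have h3 : ((r : ℕ) : ℤ) = ((a : ℤ) - f.eval 0) % q := by
          rw [hr, Int.toNat_of_nonneg (Int.emod_nonneg _ hqz.ne')]
        have h4 : (q : ℤ) ∣ ((a : ℤ) - f.eval 0) - r := by
          rw [h3]
          exact Int.dvd_self_sub_emod
        have h5 : (q : ℤ) ∣ (r : ℤ) - b := by
          have e : (r : ℤ) - b = (f.eval (n : ℤ) - f.eval 0) - ((p : ℤ) - a) - (((a : ℤ) - f.eval 0) - r) := by
            rw [hpb]; ring
          rw [e]
          exact dvd_sub (dvd_sub h1 h2) h4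
        exact (Nat.modEq_iff_dvd.2 h5)
      have h1 := Set.ncard_le_ncard hsub (Finset.finite_toSet _)
      rw [Set.ncard_coe_finset] at h1
      have h2 := Nat.Ioc_filter_modEq_card 0 X (r := q) hq1 r
      have h3 : (((Ioc 0 X).filter (fun b => b ≡ r [MOD q])).card : ℚ) ≤ X / q + 1 := by
        have hqq : (0 : ℚ) < q := by exact_mod_cast hq1
        have e : (((Ioc 0 X).filter (fun b => b ≡ r [MOD q])).card : ℚ) =
            ((((Ioc 0 X).filter (fun b => b ≡ r [MOD q])).card : ℤ) : ℚ) := by push_cast; rfl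
        rw [e, h2]
        push_cast
        apply max_le _ (by positivity)
        have f1 := Int.floor_le (((X : ℚ) - r) / q)
        have f2 := Int.lt_floor_add_one (((0 : ℚ) - r) / q)
        have f3 : ((X : ℚ) - r) / q - ((0 : ℚ) - r) / q = X / q := by ring
        linarith
      have h4 : (((Ioc 0 X).filter (fun b => b ≡ r [MOD q])).card : ℝ) ≤ X / q + 1 := by
        have := (Rat.cast_le (K := ℝ)).2 h3
        push_cast at this
        exact this
      have h5 : ({b : ℕ | 1 ≤ b ∧ b ≤ X ∧ ∃ n ∈ {n : ℕ | q ∣ n}, ∃ p ∈ Pr.filter (fun p => p % q = a),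
          (p : ℤ) = f.eval (n : ℤ) + b}.ncard : ℝ) ≤ X / q + 1 := le_trans (by exact_mod_cast h1) h4
      refine h5.trans ?_
      have hX0 : (0 : ℝ) ≤ X := Nat.cast_nonneg _
      have h6 : (X : ℝ) / q ≤ 4 * δ * X := by
        rw [div_le_iff₀ hq0]
        nlinarith
      have h7 : 1 ≤ δ * X := by
        rw [div_le_iff₀ hδ] at hXδ
        linarith
      linarith

end Pool.Agent.U621.MS
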